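import Pool.Agent.Run7.h487.TC.C

/-!
# The number of translational tiles in `[n]^d` is not `O(n^(d-1) (3^(1/3))^(n^d))` for `d ≥ 3`

Let `n = 3 m`. For integers `1 ≤ s < n` and vectors `r, u` modulo `n` with `d - 2` coordinates let `L` be the lattice
generated by `(m, s, r)`, `(0, n, u)` and `(0, 0, n e_l)`. Every class of `ℤ^d` modulo `L` meets the cube `[n]^d` in exactly
three points, one in each third of the first coordinate, so that `L` gives `3^(n^d / 3)` tiles (all transversals of the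
classes). The vector `u` matters because the step from one third to the next one leaves the range of the second coordinate
for some points and not for others. There are `(n - 1) n^(2 d - 4)` lattices, and two different ones have few common
transversals: for `m` pairs of disjoint classes of the first one, one of the nine choices of representatives contains two
points which are congruent modulo the second one.
-/

set_option autoImplicit false

namespace Pool.Agent.Results.MP_13da68_co.ManyLattices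

open Run7.h487.TC

/-- The finite set `S ⊆ ℤ^d` tiles `ℤ^d` by translations: for some `T ⊆ ℤ^d` every `x ∈ ℤ^d` can be
written in exactly one way as `x = s + t` with `s ∈ S`, `t ∈ T`. -/
def Tiles {d : ℕ} (S : Finset (Fin d → ℤ)) : Prop :=
  ∃ T : Set (Fin d → ℤ), ∀ x : Fin d → ℤ,
    ∃! p : (Fin d → ℤ) × (Fin d → ℤ), p.1 ∈ S ∧ p.2 ∈ T ∧ x = p.1 + p.2

/-- the cube `[n]^d = {1, …, n}^d` -/
noncomputable def cube (d n : ℕ) : Finset (Fin d → ℤ) := Fintype.piFinset fun _ => Finset.Icc 1 (n : ℤ)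

open Classical in
/-- `t_{n,d}`: the number of subsets `S` of `[n]^d` that tile `ℤ^d` by translations -/
noncomputable def t (n d : ℕ) : ℕ := ((cube d n).powerset.filter fun S => Tiles S).card

/-- coordinates -/
def ps {k : ℕ} (w : Fin (k + 2) → ℤ) : V k := (w 0, w 1, fun l => w l.succ.succ)

/-- the inverse, moved by one -/
def ph {k : ℕ} (v : V k) : Fin (k + 2) → ℤ :=
  Fin.cons (α := fun _ => ℤ) (v.1 + 1) (Fin.cons (α := fun _ => ℤ) (v.2.1 + 1) fun l => v.2.2 l + 1)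

/-- the all ones point -/
def one (k : ℕ) : V k := (1, 1, fun _ => 1)

lemma ps_ph {k : ℕ} (v : V k) : ps (ph v) = v + one k := rfl

lemma ps_inj {k : ℕ} {w w' : Fin (k + 2) → ℤ} (h : ps w = ps w') : w = w' := by
  simp only [ps, Prod.mk.injEq] at h
  funext i
  refine Fin.cases h.1 (fun j => Fin.cases h.2.1 (fun l => congrFun h.2.2 l) j) i

lemma ps_add {k : ℕ} (w w' : Fin (k + 2) → ℤ) : ps (w + w') = ps w + ps w' := rfl

lemma ps_sub {k : ℕ} (w w' : Fin (k + 2) → ℤ) : ps (w - w') = ps w - ps w' := rfl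

lemma ph_inj {k : ℕ} : Function.Injective (ph (k := k)) := by
  intro v v' h
  have h1 := congrArg ps h
  rw [ps_ph, ps_ph] at h1
  exact add_right_cancel h1

lemma tiles_S {m n k : ℕ} [NeZero m] [NeZero n] (s : ℤ) (r u : Fin k → ZMod n) (c : C m n k) :
    Tiles ((S s r u c).image ph) := by
  classical
  refine ⟨{w | cl m n s r u (ps w) = 0}, fun x => ?_⟩
  set d := cl m n s r u (ps x - one k) with hd
  have hv := E_mem s r u c d
  set v := E m n s r u ((c d.1 d.2 : ℕ) : ℤ) d with hvdef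
  have hcv : cl m n s r u v = d := cl_E s r u _ d
  refine ⟨(ph v, x - ph v), ⟨Finset.mem_image.2 ⟨v, hv, rfl⟩, ?_, by simp⟩, ?_⟩
  · show cl m n s r u (ps (x - ph v)) = 0
    rw [ps_sub, ps_ph, add_comm, ← sub_sub]
    exact cl_sub (by rw [hcv])
  · rintro ⟨a, b⟩ ⟨ha, hb, hab⟩
    obtain ⟨v', hv', rfl⟩ := Finset.mem_image.1 ha
    have hb : cl m n s r u (ps b) = 0 := hb
    have hab : x = ph v' + b := hab
    have h1 : ps x - one k = v' + ps b := by
      rw [hab, ps_add, ps_ph]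
      abel
    have h2 : cl m n s r u v' = d := by
      rw [hd, h1, cl_add v' hb]
    have h3 : v' = v := by
      have h4 := S_cl hv'
      rw [h2] at h4
      exact h4
    rw [h3] at hab ⊢
    rw [hab]
    simp

/-- the lower bound for the number of tiles -/
lemma lower (m k : ℕ) (hm : 1 ≤ m) :
    (((3 * m - 1 : ℕ) : ℝ) * (3 * m) ^ (2 * k)) * 3 ^ ((3 * m) ^ (k + 1) * m) *
      (1 - (((3 * m - 1 : ℕ) : ℝ) * (3 * m) ^ (2 * k)) * (8 / 9) ^ m) ≤ (t (3 * m) (k + 2) : ℝ) := by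
  classical
  have : NeZero m := ⟨by omega⟩
  have : NeZero (3 * m) := ⟨by omega⟩
  have hcard : (Fintype.card (Par (3 * m) k) : ℝ) = ((3 * m - 1 : ℕ) : ℝ) * (3 * m) ^ (2 * k) := by
    rw [Fintype.card_prod, Fintype.card_prod, Fintype.card_fin, Fintype.card_fun, ZMod.card,
      Fintype.card_fin]
    push_cast
    ring
  set F : Finset (Finset (V k)) :=
    (Finset.univ : Finset (Par (3 * m) k × C m (3 * m) k)).image (fun p => SS p.1 p.2) with hF
  have h1 := total_count (m := m) (n := 3 * m) F (fun θ c =>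
    Finset.mem_image.2 ⟨(θ, c), Finset.mem_univ _, rfl⟩)
  rw [hcard] at h1
  refine h1.trans ?_
  have h2 : F.card ≤ t (3 * m) (k + 2) := by
    unfold t
    refine Finset.card_le_card_of_injOn (fun S => S.image ph) ?_ ?_
    · intro S hS
      obtain ⟨⟨θ, c⟩, -, rfl⟩ := Finset.mem_image.1 (Finset.mem_coe.1 hS)
      rw [Finset.mem_coe, Finset.mem_filter, Finset.mem_powerset]
      refine ⟨?_, tiles_S _ _ _ c⟩
      intro w hw
      obtain ⟨v, hv, rfl⟩ := Finset.mem_image.1 hw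
      obtain ⟨⟨h1, h2⟩, ⟨h3, h4⟩, h5⟩ := S_box hv
      unfold cube
      rw [Fintype.mem_piFinset]
      intro i
      rw [Finset.mem_Icc]
      refine Fin.cases ?_ (fun j => Fin.cases ?_ (fun l => ?_) j) i
      · show 1 ≤ v.1 + 1 ∧ v.1 + 1 ≤ _
        push_cast
        omega
      · show 1 ≤ v.2.1 + 1 ∧ v.2.1 + 1 ≤ _
        push_cast at h4 ⊢
        omega
      · show 1 ≤ v.2.2 l + 1 ∧ v.2.2 l + 1 ≤ _
        have := h5 l
        push_cast at this ⊢
        omega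
    · intro S _ S' _ h
      exact Finset.image_injective ph_inj h
  exact_mod_cast h2

lemma root_pow (a : ℕ) : ((3 : ℝ) ^ ((1 : ℝ) / 3)) ^ (3 * a) = 3 ^ a := by
  rw [pow_mul]
  congr 1
  rw [← Real.rpow_natCast, ← Real.rpow_mul (by norm_num)]
  norm_num

/-- For every `d ≥ 3` there are `c > 0` and `n₀` such that `t_{n,d} ≥ c n^(2 d - 3) (3^(1/3))^(n^d)` for all `n ≥ n₀` divisible
by three. Hence the bound `t_{n,d} = O(n^(d-1) (3^(1/3))^(n^d))` fails for every `d ≥ 3`: whatever `K` and `n₀` are, there is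
`n ≥ n₀` with `t_{n,d} > K n^(d-1) (3^(1/3))^(n^d)`. In particular the answer to Q2 is negative. -/
theorem result :
    (∀ d : ℕ, 3 ≤ d → ∃ c : ℝ, 0 < c ∧ ∃ n₀ : ℕ, ∀ n : ℕ, n₀ ≤ n → 3 ∣ n →
      c * (n : ℝ) ^ (2 * d - 3) * ((3 : ℝ) ^ ((1 : ℝ) / 3)) ^ (n ^ d) ≤ t n d) ∧
    (∀ d : ℕ, 3 ≤ d → ∀ K : ℝ, ∀ n₀ : ℕ, ∃ n : ℕ, n₀ ≤ n ∧
      K * (n : ℝ) ^ (d - 1) * ((3 : ℝ) ^ ((1 : ℝ) / 3)) ^ (n ^ d) < t n d) ∧
    ¬ ∀ d : ℕ, 1 ≤ d → ∃ K : ℝ, ∃ n₀ : ℕ, ∀ n : ℕ, n₀ ≤ n →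
      (t n d : ℝ) ≤ K * (n : ℝ) ^ (d - 1) * ((3 : ℝ) ^ ((1 : ℝ) / 3)) ^ (n ^ d) := by
  have h1 : ∀ d : ℕ, 3 ≤ d → ∃ c : ℝ, 0 < c ∧ ∃ n₀ : ℕ, ∀ n : ℕ, n₀ ≤ n → 3 ∣ n →
      c * (n : ℝ) ^ (2 * d - 3) * ((3 : ℝ) ^ ((1 : ℝ) / 3)) ^ (n ^ d) ≤ t n d := by
    intro d hd
    obtain ⟨k, rfl⟩ : ∃ k, d = k + 2 := ⟨d - 2, by omega⟩
    have hlim := tendsto_pow_const_mul_const_pow_of_abs_lt_one (2 * k + 1) (r := (8 / 9 : ℝ))
      (by rw [abs_of_pos] <;> norm_num)
    have hev := hlim.eventually (gt_mem_nhds (show (0 : ℝ) < 1 / (2 * 3 ^ (2 * k + 1)) by positivity))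
    obtain ⟨m₀, hm₀⟩ := Filter.eventually_atTop.1 hev
    refine ⟨1 / 4, by norm_num, 3 * (m₀ + 1), ?_⟩
    rintro n hn ⟨m, rfl⟩
    have hm : m₀ ≤ m := by omega
    have hm1 : 1 ≤ m := by omega
    have h2 := hm₀ m hm
    have h3 := lower m k hm1
    set A : ℝ := ((3 * m - 1 : ℕ) : ℝ) * (3 * m) ^ (2 * k) with hA
    have hA0 : 0 ≤ A := by positivity
    have hmr : (1 : ℝ) ≤ m := by exact_mod_cast hm1
    have hsub : ((3 * m - 1 : ℕ) : ℝ) = 3 * m - 1 := by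
      rw [Nat.cast_sub (by omega)]; push_cast; ring
    have hA1 : A ≤ (3 * m) ^ (2 * k + 1) := by
      rw [hA, pow_succ, mul_comm]
      apply mul_le_mul_of_nonneg_left _ (by positivity)
      rw [hsub]; linarith
    have hA2 : 1 / 2 * (3 * (m : ℝ)) ^ (2 * k + 1) ≤ A := by
      rw [hA, pow_succ, hsub]
      have : (0 : ℝ) ≤ (3 * (m : ℝ)) ^ (2 * k) := by positivity
      nlinarith
    have hAq : A * (8 / 9) ^ m ≤ 1 / 2 := by
      calc A * (8 / 9) ^ m ≤ (3 * m) ^ (2 * k + 1) * (8 / 9) ^ m :=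
            mul_le_mul_of_nonneg_right hA1 (by positivity)
        _ = 3 ^ (2 * k + 1) * ((m : ℝ) ^ (2 * k + 1) * (8 / 9) ^ m) := by rw [mul_pow]; ring
        _ ≤ 3 ^ (2 * k + 1) * (1 / (2 * 3 ^ (2 * k + 1))) :=
            mul_le_mul_of_nonneg_left h2.le (by positivity)
        _ = 1 / 2 := by field_simp
    have e1 : 2 * (k + 2) - 3 = 2 * k + 1 := by omega
    have e2 : (3 * m) ^ (k + 2) = 3 * ((3 * m) ^ (k + 1) * m) := by ring
    rw [e1, e2, root_pow]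
    push_cast at h3 ⊢
    refine le_trans ?_ h3
    have hp : (0 : ℝ) < 3 ^ ((3 * m) ^ (k + 1) * m) := by positivity
    calc 1 / 4 * (3 * (m : ℝ)) ^ (2 * k + 1) * 3 ^ ((3 * m) ^ (k + 1) * m)
        ≤ A * 3 ^ ((3 * m) ^ (k + 1) * m) * (1 / 2) := by nlinarith
      _ ≤ A * 3 ^ ((3 * m) ^ (k + 1) * m) * (1 - A * (8 / 9) ^ m) :=
          mul_le_mul_of_nonneg_left (by linarith) (by positivity)
  have h2 : ∀ d : ℕ, 3 ≤ d → ∀ K : ℝ, ∀ n₀ : ℕ, ∃ n : ℕ, n₀ ≤ n ∧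
      K * (n : ℝ) ^ (d - 1) * ((3 : ℝ) ^ ((1 : ℝ) / 3)) ^ (n ^ d) < t n d := by
    intro d hd K n₀
    obtain ⟨c, hc, n₁, h⟩ := h1 d hd
    obtain ⟨a, ha⟩ := exists_nat_gt (K / c)
    refine ⟨3 * (n₀ + n₁ + a + 1), by omega, ?_⟩
    set n := 3 * (n₀ + n₁ + a + 1) with hn
    have h3 := h n (by omega) ⟨_, rfl⟩
    refine lt_of_lt_of_le ?_ h3
    have hn1 : (1 : ℝ) ≤ n := by exact_mod_cast (by omega : 1 ≤ n)
    have hB : (0 : ℝ) < ((3 : ℝ) ^ ((1 : ℝ) / 3)) ^ (n ^ d) := by positivity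
    apply mul_lt_mul_of_pos_right _ hB
    have e1 : (n : ℝ) ^ (2 * d - 3) = (n : ℝ) ^ (d - 1) * (n : ℝ) ^ (d - 2) := by
      rw [← pow_add]; congr 1; omega
    have h4 : (n : ℝ) ≤ (n : ℝ) ^ (d - 2) := by
      calc (n : ℝ) = (n : ℝ) ^ 1 := (pow_one _).symm
        _ ≤ (n : ℝ) ^ (d - 2) := pow_le_pow_right₀ hn1 (by omega)
    have h5 : K < c * n := by
      have h6 : (a : ℝ) ≤ n := by exact_mod_cast (by omega : a ≤ n)
      have h7 : K / c < n := lt_of_lt_of_le ha h6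
      rw [div_lt_iff₀ hc] at h7
      linarith
    have h6 : (0 : ℝ) < (n : ℝ) ^ (d - 1) := by positivity
    rw [e1]
    have h8 : K < c * (n : ℝ) ^ (d - 2) := lt_of_lt_of_le h5 (mul_le_mul_of_nonneg_left h4 hc.le)
    nlinarith
  refine ⟨h1, h2, fun hcon => ?_⟩
  obtain ⟨K, n₀, h⟩ := hcon 3 (by norm_num)
  obtain ⟨n, hn, h3⟩ := h2 3 le_rfl K n₀
  exact absurd (h n hn) (not_le.2 h3)

end Pool.Agent.Results.MP_13da68_co.ManyLattices
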